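import Mathlib
import Pool.Agent.Run7.h53.TI.Flip

/-!
# Long lacunary chains of Hoffman elements of one weight (helper867)

`d` letters 3 are moved, one after the other, through `J` blocks of places at the distances `(3 ^ j - 1) * d` from the end
of the word. Each of the `J * d` moves is an exchange of a three with a two (helper53) and increases the value by the
factor `47 / 42` at least.
-/

set_option autoImplicit false

namespace Run7.h867.LH

open Finset
open Pool.Agent.H447R2.MZ (val)

/-- the word of length `N` in the letters 2, 3 with the letters 3 at the places in `X` (place 0: first letter) -/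
def wd (N : ℕ) (X : Finset ℕ) : List ℕ := (List.range N).map fun i => if i ∈ X then 3 else 2

lemma wd_or (N : ℕ) (X : Finset ℕ) : ∀ a ∈ wd N X, a = 2 ∨ a = 3 := by
  intro a ha
  unfold wd at ha
  obtain ⟨i, -, rfl⟩ := List.mem_map.1 ha
  by_cases h : i ∈ X
  · right; simp [h]
  · left; simp [h]

lemma wd_length (N : ℕ) (X : Finset ℕ) : (wd N X).length = N := by
  unfold wd
  rw [List.length_map, List.length_range]

lemma wd_count (N : ℕ) (X : Finset ℕ) : (wd N X).count 3 = #{i ∈ range N | i ∈ X} := by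
  induction N with
  | zero => simp [wd]
  | succ N ih =>
    have h1 : wd (N + 1) X = wd N X ++ [if N ∈ X then 3 else 2] := by
      unfold wd
      rw [List.range_succ, List.map_append]
      rfl
    rw [h1, List.count_append, ih, Finset.range_add_one, Finset.filter_insert]
    by_cases h : N ∈ X
    · rw [if_pos h, if_pos h, Finset.card_insert_of_notMem (by simp)]
      simp
    · rw [if_neg h, if_neg h]
      simp

lemma wd_sum (N : ℕ) (X : Finset ℕ) : (wd N X).sum = 2 * N + #{i ∈ range N | i ∈ X} := by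
  induction N with
  | zero => simp [wd]
  | succ N ih =>
    have h1 : wd (N + 1) X = wd N X ++ [if N ∈ X then 3 else 2] := by
      unfold wd
      rw [List.range_succ, List.map_append]
      rfl
    rw [h1, List.sum_append, ih, Finset.range_add_one, Finset.filter_insert]
    by_cases h : N ∈ X
    · rw [if_pos h, if_pos h, Finset.card_insert_of_notMem (by simp)]
      simp
      ring
    · rw [if_neg h, if_neg h]
      simp
      ring

lemma range_split (p a b : ℕ) : List.range (p + 1 + a + 1 + b) =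
    List.range' 0 p ++ p :: List.range' (p + 1) a ++ (p + 1 + a) :: List.range' (p + 1 + a + 1) b := by
  have h1 : List.range (p + 1 + a + 1 + b) = List.range' 0 p ++ List.range' (0 + p) (1 + (a + (1 + b))) := by
    rw [List.range'_append_1, List.range_eq_range']
    congr 1
    ring
  have h2 : List.range' (0 + p) (1 + (a + (1 + b))) = p :: List.range' (p + 1) (a + (1 + b)) := by
    rw [Nat.zero_add, Nat.add_comm 1 (a + (1 + b)), List.range'_succ]
  have h3 : List.range' (p + 1) (a + (1 + b)) = List.range' (p + 1) a ++ List.range' (p + 1 + a) (1 + b) := by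
    rw [List.range'_append_1]
  have h4 : List.range' (p + 1 + a) (1 + b) = (p + 1 + a) :: List.range' (p + 1 + a + 1) b := by
    rw [Nat.add_comm 1 b, List.range'_succ]
  rw [h1, h2, h3, h4]
  simp

lemma two_le_map (X : Finset ℕ) (l : List ℕ) : ∀ x ∈ l.map (fun i => if i ∈ X then 3 else 2), 2 ≤ x := by
  intro x hx
  obtain ⟨i, -, rfl⟩ := List.mem_map.1 hx
  by_cases h : i ∈ X
  · simp [h]
  · simp [h]

/-- **Exchange** of a three at the place `p` with a two at the place `q = p + 2 m`. -/
theorem step {N p q m : ℕ} {Y : Finset ℕ} (hp : p ∉ Y) (hq : q ∉ Y) (hm : 1 ≤ m) (h : q = p + 2 * m) (hqN : q < N)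
    (hS : N ≤ q + 1 + m) (hP : m ≤ p) :
    (1 + 5 / 42) * val (wd N (insert p Y)) ≤ val (wd N (insert q Y)) := by
  obtain ⟨b, hb⟩ : ∃ b, N = q + 1 + b := ⟨N - (q + 1), by omega⟩
  obtain ⟨a, ha⟩ : ∃ a, 2 * m = a + 1 := ⟨2 * m - 1, by omega⟩
  have hN : N = p + 1 + a + 1 + b := by omega
  have hq' : q = p + 1 + a := by omega
  set g : ℕ → ℕ := fun i => if i ∈ Y then 3 else 2 with hg
  have e1 : wd N (insert p Y) = (List.range' 0 p).map g ++ 3 :: (List.range' (p + 1) a).map g ++
      2 :: (List.range' (p + 1 + a + 1) b).map g := by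
    unfold wd
    rw [hN, range_split, List.map_append, List.map_append, List.map_cons, List.map_cons]
    congr 1
    · congr 1
      · refine List.map_congr_left fun i hi => ?_
        have := (List.mem_range'_1.1 hi).2
        have h1 : i ≠ p := by omega
        simp [hg, h1]
      · congr 1
        · simp
        · refine List.map_congr_left fun i hi => ?_
          have := (List.mem_range'_1.1 hi).1
          have h1 : i ≠ p := by omega
          simp [hg, h1]
    · congr 1
      · have h1 : p + 1 + a ≠ p := by omega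
        have h2 : p + 1 + a ∉ Y := by rw [← hq']; exact hq
        simp [h1, h2]
      · refine List.map_congr_left fun i hi => ?_
        have := (List.mem_range'_1.1 hi).1
        have h1 : i ≠ p := by omega
        simp [hg, h1]
  have e2 : wd N (insert q Y) = (List.range' 0 p).map g ++ 2 :: (List.range' (p + 1) a).map g ++
      3 :: (List.range' (p + 1 + a + 1) b).map g := by
    unfold wd
    rw [hN, range_split, List.map_append, List.map_append, List.map_cons, List.map_cons]
    congr 1
    · congr 1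
      · refine List.map_congr_left fun i hi => ?_
        have := (List.mem_range'_1.1 hi).2
        have h1 : i ≠ q := by omega
        simp [hg, h1]
      · congr 1
        · have h1 : p ≠ q := by omega
          simp [h1, hp]
        · refine List.map_congr_left fun i hi => ?_
          have := (List.mem_range'_1.1 hi).2
          have h1 : i ≠ q := by omega
          simp [hg, h1]
    · congr 1
      · have h1 : p + 1 + a = q := by omega
        simp [h1]
      · refine List.map_congr_left fun i hi => ?_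
        have := (List.mem_range'_1.1 hi).1
        have h1 : i ≠ q := by omega
        simp [hg, h1]
  rw [e1, e2]
  refine Run7.h53.TI.flip hm (two_le_map Y _) (two_le_map Y _) (two_le_map Y _) ?_ ?_ ?_
  · rw [List.length_map, List.length_range']
    omega
  · rw [List.length_map, List.length_range']
    omega
  · rw [List.length_map, List.length_range']
    omega

/-- the distance from the end of the word of the `i`-th three in the block `j` -/
def off (d i j : ℕ) : ℕ := (3 ^ j - 1) * d + i

lemma off_succ (d i j : ℕ) : off d i (j + 1) = off d i j + 2 * (3 ^ j * d) := by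
  unfold off
  obtain ⟨k, hk⟩ : ∃ k, 3 ^ j = k + 1 := ⟨3 ^ j - 1, by have := Nat.one_le_pow j 3 (by norm_num); omega⟩
  rw [pow_succ, hk]
  have h1 : (k + 1) * 3 - 1 = 3 * k + 2 := by omega
  have h2 : k + 1 - 1 = k := by omega
  rw [h1, h2]
  ring

lemma off_lt {d i j : ℕ} (hi : i < d) : off d i j < 3 ^ j * d := by
  unfold off
  obtain ⟨k, hk⟩ : ∃ k, 3 ^ j = k + 1 := ⟨3 ^ j - 1, by have := Nat.one_le_pow j 3 (by norm_num); omega⟩
  rw [hk]
  have h2 : k + 1 - 1 = k := by omega
  rw [h2]
  nlinarith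

lemma off_block {d i j i' j' : ℕ} (hi : i < d) (h : j < j') : off d i j < off d i' j' := by
  have h1 := off_lt (j := j) hi
  have h2 : 3 ^ j * d ≤ off d i' j' := by
    unfold off
    have h3 : 3 ^ j ≤ 3 ^ j' - 1 := by
      have h4 : 3 ^ (j + 1) ≤ 3 ^ j' := Nat.pow_le_pow_right (by norm_num) h
      rw [pow_succ] at h4
      have := Nat.one_le_pow j 3 (by norm_num)
      omega
    calc 3 ^ j * d ≤ (3 ^ j' - 1) * d := Nat.mul_le_mul_right _ h3
      _ ≤ _ := Nat.le_add_right _ _
  omega

lemma off_inj {d i j i' j' : ℕ} (hi : i < d) (hi' : i' < d) (h : off d i j = off d i' j') : i = i' := by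
  rcases lt_trichotomy j j' with h1 | h1 | h1
  · have := off_block (i' := i') hi h1
    omega
  · subst h1
    unfold off at h
    omega
  · have := off_block (i' := i) hi' h1
    omega

/-- the places of the threes for the level function `ℓ` -/
def pl (N d : ℕ) (ℓ : ℕ → ℕ) (s : Finset ℕ) : Finset ℕ := s.image fun i => N - 1 - off d i (ℓ i)

lemma off_bound {N d i j J : ℕ} (hi : i < d) (hj : j ≤ J) (hN : 4 * 3 ^ J * d ≤ 3 * N) : off d i j < N := by
  have h1 := off_lt (j := j) hi
  have h2 : 3 ^ j * d ≤ 3 ^ J * d := Nat.mul_le_mul_right _ (Nat.pow_le_pow_right (by norm_num) hj)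
  have h3 : 4 * 3 ^ J * d = 4 * (3 ^ J * d) := by ring
  omega

lemma pl_notMem {N d J i j : ℕ} {ℓ : ℕ → ℕ} {s : Finset ℕ} (hN : 4 * 3 ^ J * d ≤ 3 * N) (hs : ∀ i' ∈ s, i' < d)
    (hℓ : ∀ i', ℓ i' ≤ J) (hi : i < d) (his : i ∉ s) (hj : j ≤ J) : N - 1 - off d i j ∉ pl N d ℓ s := by
  intro h
  unfold pl at h
  obtain ⟨i', hi', he⟩ := Finset.mem_image.1 h
  have h1 := off_bound hi hj hN
  have h2 := off_bound (hs i' hi') (hℓ i') hN
  have h3 : off d i' (ℓ i') = off d i j := by omega
  have h4 := off_inj (hs i' hi') hi h3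
  exact his (h4 ▸ hi')

lemma pl_card {N d J : ℕ} {ℓ : ℕ → ℕ} (hN : 4 * 3 ^ J * d ≤ 3 * N) (hℓ : ∀ i', ℓ i' ≤ J) :
    #{x ∈ range N | x ∈ pl N d ℓ (range d)} = d := by
  have h0 : {x ∈ range N | x ∈ pl N d ℓ (range d)} = pl N d ℓ (range d) := by
    ext x
    rw [mem_filter]
    refine ⟨fun h => h.2, fun h => ⟨?_, h⟩⟩
    unfold pl at h
    obtain ⟨i', hi', he⟩ := Finset.mem_image.1 h
    have h2 := off_bound (mem_range.1 hi') (hℓ i') hN
    rw [mem_range]
    omega
  rw [h0]
  unfold pl
  rw [Finset.card_image_of_injOn, card_range]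
  intro i hi i' hi' he
  have hi := mem_range.1 (mem_coe.1 hi)
  have hi' := mem_range.1 (mem_coe.1 hi')
  have h1 := off_bound hi (hℓ i) hN
  have h2 := off_bound hi' (hℓ i') hN
  refine off_inj hi hi' (j := ℓ i) (j' := ℓ i') ?_
  simp only at he
  omega

/-- lowering the level of one three by one increases the value by the factor `47 / 42` at least -/
theorem level_step {N d J i j : ℕ} {ℓ ℓ' : ℕ → ℕ} (hN : 4 * 3 ^ J * d ≤ 3 * N) (hi : i < d) (hℓ : ∀ i', ℓ i' ≤ J)
    (h1 : ℓ i = j + 1) (h2 : ℓ' i = j) (h3 : ∀ i' ≠ i, i' < d → ℓ' i' = ℓ i') :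
    (1 + 5 / 42) * val (wd N (pl N d ℓ (range d))) ≤ val (wd N (pl N d ℓ' (range d))) := by
  have hr : range d = insert i ((range d).erase i) := (insert_erase (mem_range.2 hi)).symm
  have e1 : pl N d ℓ (range d) = insert (N - 1 - off d i (j + 1)) (pl N d ℓ ((range d).erase i)) := by
    unfold pl
    conv_lhs => rw [hr]
    rw [Finset.image_insert, h1]
  have e2 : pl N d ℓ' (range d) = insert (N - 1 - off d i j) (pl N d ℓ ((range d).erase i)) := by
    unfold pl
    conv_lhs => rw [hr]
    rw [Finset.image_insert, h2]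
    congr 1
    refine Finset.image_congr fun i' hi' => ?_
    have hi' := mem_erase.1 (mem_coe.1 hi')
    rw [h3 i' hi'.1 (mem_range.1 hi'.2)]
  have hjJ : j + 1 ≤ J := h1 ▸ hℓ i
  have hs : ∀ i' ∈ (range d).erase i, i' < d := fun i' h => mem_range.1 (mem_erase.1 h).2
  have b1 := off_bound hi hjJ hN
  have b2 := off_succ d i j
  have b3 := off_lt (j := j) hi
  have b4 : 4 * 3 ^ J * d ≥ 3 * (4 * (3 ^ j * d)) := by
    have : 3 ^ (j + 1) ≤ 3 ^ J := Nat.pow_le_pow_right (by norm_num) hjJ
    calc 3 * (4 * (3 ^ j * d)) = 4 * 3 ^ (j + 1) * d := by ring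
      _ ≤ 4 * 3 ^ J * d := Nat.mul_le_mul_right _ (Nat.mul_le_mul_left _ this)
  have hm : 1 ≤ 3 ^ j * d := Nat.mul_pos (pow_pos (by norm_num) _) (by omega)
  rw [e1, e2]
  refine step (m := 3 ^ j * d) (pl_notMem hN hs hℓ hi (by simp) hjJ) (pl_notMem hN hs hℓ hi (by simp) (by omega)) hm
    ?_ ?_ ?_ ?_
  · omega
  · omega
  · omega
  · omega

/-- the levels after `t` moves -/
def lv (J t : ℕ) (i : ℕ) : ℕ := J - (t - i * J)

/-- the words of the chain -/
def cw (N d J t : ℕ) : List ℕ := wd N (pl N d (lv J t) (range d))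

theorem chain {N d J t : ℕ} (hN : 4 * 3 ^ J * d ≤ 3 * N) (ht : t < J * d) :
    (1 + 5 / 42) * val (cw N d J t) ≤ val (cw N d J (t + 1)) := by
  have hJ : 0 < J := by
    rcases Nat.eq_zero_or_pos J with h | h
    · simp [h] at ht
    · exact h
  obtain ⟨i, hi⟩ : ∃ i, i = t / J := ⟨_, rfl⟩
  obtain ⟨s, hs⟩ : ∃ s, s = t % J := ⟨_, rfl⟩
  have h1 : J * i + s = t := by rw [hi, hs]; exact Nat.div_add_mod t J
  have h2 : s < J := by rw [hs]; exact Nat.mod_lt _ hJ
  have h3 : i < d := by
    rw [hi]
    exact Nat.div_lt_of_lt_mul ht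
  have h4 : J * i = i * J := Nat.mul_comm _ _
  refine level_step (i := i) (j := J - s - 1) hN h3 (fun i' => Nat.sub_le _ _) ?_ ?_ ?_
  · unfold lv
    have : t - i * J = s := by omega
    rw [this]
    omega
  · unfold lv
    have : t + 1 - i * J = s + 1 := by omega
    rw [this]
    omega
  · intro i' hne _
    unfold lv
    rcases lt_or_gt_of_ne hne with h | h
    · have h5 : (i' + 1) * J ≤ i * J := Nat.mul_le_mul_right _ h
      have h6 : (i' + 1) * J = i' * J + J := by ring
      omega
    · have h5 : (i + 1) * J ≤ i' * J := Nat.mul_le_mul_right _ h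
      have h6 : (i + 1) * J = i * J + J := by ring
      omega

lemma chain_pow {N d J t : ℕ} (hN : 4 * 3 ^ J * d ≤ 3 * N) (k : ℕ) (ht : t + k ≤ J * d) :
    (1 + 5 / 42 : ℝ) ^ k * val (cw N d J t) ≤ val (cw N d J (t + k)) := by
  induction k with
  | zero => simp
  | succ k ih =>
    have h1 := ih (by omega)
    have h2 := chain (t := t + k) hN (by omega)
    calc (1 + 5 / 42 : ℝ) ^ (k + 1) * val (cw N d J t) = (1 + 5 / 42) * ((1 + 5 / 42 : ℝ) ^ k * val (cw N d J t)) := by
          ring
      _ ≤ (1 + 5 / 42) * val (cw N d J (t + k)) := mul_le_mul_of_nonneg_left h1 (by norm_num)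
      _ ≤ _ := h2

/-- lacunary sequences have no relations of small height -/
lemma lac {u : ℕ → ℝ} {K : ℕ} {H : ℝ} (hu : ∀ i, 0 ≤ u i)
    (h : ∀ i, i + 1 < K → (2 * H + 1) * u i ≤ u (i + 1)) (j : ℕ) (hj : j < K) :
    2 * H * ∑ i ∈ range j, u i ≤ u j := by
  induction j with
  | zero => simpa using hu 0
  | succ j ih =>
    have h1 := ih (by omega)
    have h2 := h j hj
    rw [sum_range_succ]
    linarith

lemma lac_form {u : ℕ → ℝ} {K : ℕ} {H : ℝ} (hH : 0 ≤ H) (hu : ∀ i, 0 ≤ u i)
    (h : ∀ i, i + 1 < K → (2 * H + 1) * u i ≤ u (i + 1)) (hmono : ∀ i j, i ≤ j → j < K → u i ≤ u j)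
    (c : ℕ → ℝ) (hc : ∀ i, c i = 0 ∨ 1 ≤ |c i| ∧ |c i| ≤ H) (j : ℕ) (hj : j < K) (hcj : c j ≠ 0) :
    u j / 2 ≤ |∑ i ∈ range K, c i * u i| := by
  classical
  have hne : ((range K).filter fun i => c i ≠ 0).Nonempty := ⟨j, by simp [hj, hcj]⟩
  obtain ⟨m, hm, hmax⟩ := Finset.exists_max_image ((range K).filter fun i => c i ≠ 0) id hne
  rw [mem_filter, mem_range] at hm
  have hjm : j ≤ m := hmax j (by simp [hj, hcj])
  have h1 := lac hu h m hm.1
  have h2 : ∑ i ∈ range K, c i * u i = ∑ i ∈ range (m + 1), c i * u i := by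
    refine (sum_subset (range_subset_range.2 (by omega)) fun i hi hi' => ?_).symm
    rw [mem_range] at hi hi'
    by_contra hne
    have h3 : c i ≠ 0 := fun h0 => hne (by rw [h0, zero_mul])
    have h4 : i ≤ m := hmax i (by simp [hi, h3])
    omega
  rw [h2, sum_range_succ]
  have h3 : |∑ i ∈ range m, c i * u i| ≤ H * ∑ i ∈ range m, u i := by
    rw [mul_sum]
    refine (abs_sum_le_sum_abs _ _).trans (sum_le_sum fun i _ => ?_)
    rw [abs_mul, abs_of_nonneg (hu i)]
    refine mul_le_mul_of_nonneg_right ?_ (hu i)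
    rcases hc i with h0 | h0
    · rw [h0, abs_zero]; exact hH
    · exact h0.2
  have h4 : u m ≤ |c m * u m| := by
    rw [abs_mul, abs_of_nonneg (hu m)]
    rcases hc m with h0 | h0
    · exact absurd h0 hm.2
    · nlinarith [hu m]
  have h5 := abs_sub_abs_le_abs_sub (c m * u m) (-∑ i ∈ range m, c i * u i)
  rw [abs_neg, sub_neg_eq_add, add_comm (c m * u m)] at h5
  have h6 := hmono j m hjm hm.1
  linarith

lemma pow_bound {H k : ℕ} (hk : 9 * Real.log (2 * H + 1) ≤ k) : (2 * H + 1 : ℝ) ≤ (1 + 5 / 42 : ℝ) ^ k := by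
  have h0 : (0 : ℝ) < 2 * H + 1 := by positivity
  have h1 : Real.exp 1 ≤ (1 + 5 / 42 : ℝ) ^ 9 := by
    have := Real.exp_one_lt_d9
    norm_num at this ⊢
    linarith
  have h2 : (1 : ℝ) ≤ 9 * Real.log (1 + 5 / 42) := by
    have h3 := Real.log_le_log (Real.exp_pos 1) h1
    rw [Real.log_exp, Real.log_pow] at h3
    exact_mod_cast h3
  rw [← Real.log_le_log_iff h0 (by positivity), Real.log_pow]
  have h4 : (0 : ℝ) ≤ k := Nat.cast_nonneg k
  nlinarith

end Run7.h867.LH
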